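import Pool.Agent.X110.DW

/-!
# The digits of many odd zeta values in every window

The linear complexity of the first `L` digits of a number `x` in base `a` is the least order of a linear
recurrence over `ℚ` which they satisfy; `x` is rational if and only if it is bounded for `L → ∞`. We show
that at every large scale `L` and in every base at least `K` of the odd zeta values in a window `(b, s]`
have a linear complexity proportional to `L`, and that all but fewer than `K` of them have jointly (one
recurrence for all the digit sequences, also after some changes of digits) a linear complexity at least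
about `S L / (S + 1)`, where `K` and `S` may be of the order `c^S (s/b)^(2/3)`, respectively `c log (s/b)`.

The proof combines the theorem on simultaneous approximation of the starting file
`Pool/Agent/Results/MP_c2395a_nt/OddZetaTwoThirds.lean` with the passage from such theorems to digits in
`Pool/Agent/Y928/JL/Fam.lean`.
-/

set_option autoImplicit false

namespace Pool.Agent.Results.MP_c2395a_nt.DigitsInWindows

open Finset

/-- the `i`-th digit of `x` after the point in base `a` -/
noncomputable def digit (a : ℕ) (x : ℝ) (i : ℕ) : ℤ := ⌊x * (a : ℝ) ^ i⌋ % (a : ℤ)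

/-- The terms `s_1, …, s_L` satisfy the linear recurrence
`s_(i+m) = c_0 s_i + … + c_(m-1) s_(i+m-1)` for `1 ≤ i ≤ L - m`. -/
def Recurrence (s : ℕ → ℤ) (c : ℕ → ℚ) (L m : ℕ) : Prop :=
  ∀ i : ℕ, 1 ≤ i → i + m ≤ L → (s (i + m) : ℚ) = ∑ j ∈ range m, c j * (s (i + j) : ℚ)

/-- the linear complexity of the first `L` digits of `x` in base `a` -/
noncomputable def complexity (a : ℕ) (x : ℝ) (L : ℕ) : ℕ :=
  sInf {m | ∃ c : ℕ → ℚ, Recurrence (digit a x) c L m}

/-- the joint `k`-error linear complexity of the first `L` digits of the numbers `x i`, `i ∈ T`, in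
base `a`: the least order of a common recurrence for the first `L` terms of sequences `s i` of
integers between `-a` and `a` which agree with the digits of the numbers `x i` in all but at most
`k` of the places `1, …, L` -/
noncomputable def jointComplexity (a : ℕ) (T : Finset ℕ) (x : ℕ → ℝ) (k L : ℕ) : ℕ :=
  sInf {m | ∃ (s : ℕ → ℕ → ℤ) (c : ℕ → ℚ) (E : Finset ℕ), E.card ≤ k ∧ ∀ i ∈ T,
    (∀ l, |s i l| ≤ a) ∧ (∀ l ∈ Icc 1 L, l ∉ E → s i l = digit a (x i) l) ∧
    Recurrence (s i) c L m}

/-- the function `m + C √((m+1) log (m+2))` -/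
noncomputable def F (C : ℝ) (m : ℕ) : ℝ :=
  m + C * Real.sqrt (((m : ℝ) + 1) * Real.log ((m : ℝ) + 2))

/-- `ζ(j) = ∑ 1/(n+1)^j` -/
noncomputable def zeta (j : ℕ) : ℝ := ∑' n : ℕ, 1 / ((n : ℝ) + 1) ^ j

/-- the odd numbers `j` with `b < j ≤ s` -/
def window (b s : ℕ) : Finset ℕ := (Finset.Ioc b s).filter Odd

/-- Let `K, S ≥ 1` and `2^(132 S) (b + 1)² K³ log (K + 1) ≤ s²`.

(1) For every `ε` in `(0, 1)` there is `L0` such that for every base `a ≥ 2` and every `L ≥ L0` at least
`K` of the odd `j` in `(b, s]` have the following property: the linear complexity of the first `L` digits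
of `ζ(j)` in base `a` is at least `(1 - ε) (S / (S + 1)) (2 L / (s - b + 1))`.

(2) There is `C` such that for every set `T` of odd numbers in `(b, s]` which lacks fewer than `K` of them,
every base `a ≥ 2` and all `k, L`: if `N` is the joint `k`-error linear complexity of the first `L` digits
of the `ζ(j)`, `j ∈ T`, then `L ≤ ((1 + 1/S) + ⋯ + (1 + 1/S)^(k+1)) (N + C √((N + 1) log (N + 2)))`. -/
theorem result (b K s S : ℕ) (hK : 1 ≤ K) (hS : 1 ≤ S)
    (hs : (2 : ℝ) ^ (132 * S) * ((b : ℝ) + 1) ^ 2 * (K : ℝ) ^ 3 * Real.log (K + 1) ≤ (s : ℝ) ^ 2) :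
    (∀ ε : ℝ, 0 < ε → ε < 1 → ∃ L0 : ℕ, ∀ a : ℕ, 2 ≤ a → ∀ L : ℕ, L0 ≤ L →
      K ≤ ((window b s).filter fun j =>
        (1 - ε) * ((S : ℝ) / (S + 1)) * (2 * L / ((s : ℝ) - b + 1)) ≤ (complexity a (zeta j) L : ℝ)).card) ∧
    ∃ C : ℝ, 0 < C ∧ ∀ T ⊆ window b s, (window b s \ T).card < K → ∀ a : ℕ, 2 ≤ a → ∀ k L : ℕ,
      (L : ℝ) ≤ (∑ i ∈ range (k + 1), (1 + 1 / (S : ℝ)) ^ (i + 1)) *
        F C (jointComplexity a T zeta k L) :=
  Pool.Agent.X110.DW.main b K s S hK hS hs

end Pool.Agent.Results.MP_c2395a_nt.DigitsInWindows
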