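import Pool.Agent.X110.LP4

/-!
# The first digits of `ζ(n)` for large `n`: rational approximations and linear complexity

The linear complexity `N` of the first `L` digits of a number in base `a` is the least order of a linear
recurrence over `ℚ` which they satisfy. For every fixed `A` and all large `n` (for example `n = 2 k + 1`)
it is shown that the first `L ≤ A n` digits of `ζ(n)` have the linear complexity
`max (n log 2 / log a, L / 2) + o(n)`, that is `L / 2 + o(n)` as soon as `L ≥ 2 n log 2 / log a`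
(the first `n log 2 / log a` digits vanish, as `ζ(n) - 1` is about `2 ^ (-n)`). The first part is the bound
of Roth's type for the rational approximations of `ζ(n)` with denominators up to `C ^ n`.

The proof: `Pool/Agent/X110/LP1.lean` to `LP4.lean`, on the basis of Roth's theorem for Dirichlet series
(`Pool/Agent/Y760/RT/`, which uses the subspace theorem over germs) and of the approximations from short
relations between digits (`Pool/Agent/Y928/PL/Core.lean`) in the starting files.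
-/

set_option autoImplicit false

namespace Pool.Agent.Results.MP_c2395a_nt.DigitsLargeArguments

open Finset

/-- the `i`-th digit of `x` after the point in base `a` -/
noncomputable def digit (a : ℕ) (x : ℝ) (i : ℕ) : ℤ := ⌊x * (a : ℝ) ^ i⌋ % (a : ℤ)

/-- The terms `s_1, …, s_L` satisfy the linear recurrence
`s_(i+m) = c_0 s_i + … + c_(m-1) s_(i+m-1)` for `1 ≤ i ≤ L - m`. -/
def Recurrence (s : ℕ → ℤ) (c : ℕ → ℚ) (L m : ℕ) : Prop :=
  ∀ i : ℕ, 1 ≤ i → i + m ≤ L → (s (i + m) : ℚ) = ∑ j ∈ range m, c j * (s (i + j) : ℚ)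

/-- the linear complexity of the first `L` digits of `x` in base `a` -/
noncomputable def complexity (a : ℕ) (x : ℝ) (L : ℕ) : ℕ :=
  sInf {m | ∃ c : ℕ → ℚ, Recurrence (digit a x) c L m}

/-- `ζ(n) = ∑ 1/(k+1)^n` -/
noncomputable def zeta (n : ℕ) : ℝ := ∑' k : ℕ, 1 / ((k : ℝ) + 1) ^ n

/-- (1) For all real `C` and `B > 1`, all sufficiently large `n` and all integers `p`, `q` with
`1 ≤ q ≤ C ^ n` and `p / q ≠ 1`, `|ζ(n) - p / q| > 1 / (q ^ 2 B ^ n)`.

(2) Let `a ≥ 2` be a base, `A` real and `ε > 0`. For all sufficiently large `n` and all `L ≤ A n`: the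
linear complexity of the first `L` digits of `ζ(n)` in base `a` is `0` if `4 a^L ≤ 2^n`, and it differs from
`max (n log 2 / log a, L / 2)` by at most `ε n` if `2^n ≤ a^L`. -/
theorem result :
    (∀ C B : ℝ, 1 < B → ∃ n0 : ℕ, ∀ n : ℕ, n0 ≤ n → ∀ p q : ℤ, 1 ≤ q → (q : ℝ) ≤ C ^ n →
      (p : ℝ) / q ≠ 1 → 1 / ((q : ℝ) ^ 2 * B ^ n) < |zeta n - p / q|) ∧
    ∀ a : ℕ, 2 ≤ a → ∀ A ε : ℝ, 0 < ε → ∃ n0 : ℕ, ∀ n : ℕ, n0 ≤ n → ∀ L : ℕ, (L : ℝ) ≤ A * n →
      (4 * (a : ℝ) ^ L ≤ 2 ^ n → complexity a (zeta n) L = 0) ∧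
      ((2 : ℝ) ^ n ≤ (a : ℝ) ^ L →
        |(complexity a (zeta n) L : ℝ) - max (n * Real.log 2 / Real.log a) ((L : ℝ) / 2)| ≤ ε * n) :=
  ⟨fun C B hB => Pool.Agent.X110.LP.roth C B hB,
    fun a ha A ε hε => Pool.Agent.X110.LP.zeta_profile a ha A ε hε⟩

end Pool.Agent.Results.MP_c2395a_nt.DigitsLargeArguments
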