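import Pool.Agent.Y926.LZ.Main

set_option autoImplicit false

namespace Pool.Agent.Results.MP_c2395a_nt.ManyInWindows

/-- **Many irrational odd zeta values in every window.** If
`s ≥ 10⁵ (b + 1) B² log (B + 1)`, then at least `B` of the odd zeta values `ζ(j)`, `b < j ≤ s`, are
irrational. -/
theorem result (b B s : ℕ) (hB : 1 ≤ B)
    (hs : (100000 : ℝ) * (b + 1) * B ^ 2 * Real.log (B + 1) ≤ s) :
    B ≤ Set.ncard {j : ℕ | b < j ∧ j ≤ s ∧ Odd j ∧ Irrational (∑' n : ℕ, 1 / ((n : ℝ) + 1) ^ j)} :=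
  Pool.Agent.Y926.LZ.window_many b B s hB hs

end Pool.Agent.Results.MP_c2395a_nt.ManyInWindows
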