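import Pool.Agent.X110.SP2

/-!
# The distance of the odd zeta values of a window to all rational spaces of bounded dimension

For every dimension `S` and every window `(b, s]` which is long enough, the point formed by the odd zeta
values of the window is far from all rational spaces of dimension `S`, uniformly in the space, and even
after removal of any `K - 1` of the coordinates.

The proof applies Dirichlet's theorem on simultaneous approximation to the generators of the space and a
common denominator argument (`Pool/Agent/X110/SP.lean`) to the theorem on simultaneous approximation of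
the starting file `Pool/Agent/Results/MP_c2395a_nt/OddZetaTwoThirds.lean`.
-/

set_option autoImplicit false

namespace Pool.Agent.Results.MP_c2395a_nt.SpaceDistanceWindows

/-- Let `K, S ≥ 1` and `2^(132 S) (b + 1)² K³ log (K + 1) ≤ s²`. There is `H0` such that for all `H ≥ H0` and
all real numbers `θ_1, …, θ_(S-1)` at least `K` of the odd `j` with `b < j ≤ s` satisfy
`|ζ(j) - (r_0 + r_1 θ_1 + ⋯ + r_(S-1) θ_(S-1))| ≥ H^(-6 S² (S s + 1))` for all rational numbers
`r_0, …, r_(S-1)` with denominators at most `H` and with numerators of `r_1, …, r_(S-1)` at most `H` in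
absolute value. -/
theorem result (b K s S : ℕ) (hK : 1 ≤ K) (hS : 1 ≤ S)
    (hs : (2 : ℝ) ^ (132 * S) * ((b : ℝ) + 1) ^ 2 * (K : ℝ) ^ 3 * Real.log (K + 1) ≤ (s : ℝ) ^ 2) :
    ∃ H0 : ℕ, ∀ H : ℕ, H0 ≤ H → ∀ θ : Fin (S - 1) → ℝ,
      K ≤ Set.ncard {j : ℕ | b < j ∧ j ≤ s ∧ Odd j ∧ ∀ (r0 : ℚ) (r : Fin (S - 1) → ℚ), r0.den ≤ H →
        (∀ i, |(r i).num| ≤ H ∧ (r i).den ≤ H) →
        1 / (H : ℝ) ^ (6 * S ^ 2 * (S * s + 1)) ≤
          |(∑' n : ℕ, 1 / ((n : ℝ) + 1) ^ j) - ((r0 : ℝ) + ∑ i, (r i : ℝ) * θ i)|} :=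
  (Pool.Agent.X110.SP.zeta_main b K s S hK hS hs).2.2

end Pool.Agent.Results.MP_c2395a_nt.SpaceDistanceWindows
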